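import Mathlib

set_option autoImplicit false

namespace Pool.Agent.Results.MP_78d2e3_co.SixCopies

/-- The Hoffman-Singleton graph, as constructed in the problem: (false, j, i) is vertex i of the
5-cycle P_j and (true, k, i) is vertex i of the 5-cycle Q_k. In P_j, i is adjacent to i + 2 and
i - 2; in Q_k, i is adjacent to i + 1 and i - 1; vertex i of P_j is adjacent to vertex jk + i of
Q_k. -/
def HS : SimpleGraph (Bool × ZMod 5 × ZMod 5) :=
  SimpleGraph.fromRel fun x y =>
    (x.1 = false ∧ y.1 = false ∧ x.2.1 = y.2.1 ∧ y.2.2 = x.2.2 + 2) ∨
    (x.1 = true ∧ y.1 = true ∧ x.2.1 = y.2.1 ∧ y.2.2 = x.2.2 + 1) ∨
    (x.1 = false ∧ y.1 = true ∧ y.2.2 = x.2.1 * y.2.1 + x.2.2)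

/-- There are m pairwise edge-disjoint subgraphs of the complete graph on 50 vertices, each
isomorphic to the Hoffman-Singleton graph. -/
def HasPacking (m : ℕ) : Prop :=
  ∃ H : Fin m → SimpleGraph (Fin 50),
    (∀ t, Nonempty (HS ≃g H t)) ∧ ∀ s t, s ≠ t → Disjoint (H s).edgeSet (H t).edgeSet

instance decHS : DecidableRel HS.Adj :=
  inferInstanceAs (DecidableRel (SimpleGraph.fromRel _).Adj)

/-- every vertex of the Hoffman-Singleton graph has exactly 7 neighbours -/
theorem regular : ∀ x, (Finset.univ.filter fun y => HS.Adj x y).card = 7 := by
  decide +kernel

/-- At most 7 copies can be packed (degree count at one vertex). -/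
theorem upper (m : ℕ) (h : HasPacking m) : m ≤ 7 := by
  classical
  obtain ⟨H, hiso, hdis⟩ := h
  have hcard : ∀ t, (Finset.univ.filter fun v => (H t).Adj 0 v).card = 7 := by
    intro t
    obtain ⟨e⟩ := hiso t
    rw [← regular (e.symm 0)]
    symm
    apply Finset.card_bij (fun x _ => e x)
    · intro x hx
      simp only [Finset.mem_filter, Finset.mem_univ, true_and] at hx ⊢
      have := (e.map_adj_iff (v := e.symm 0) (w := x)).2 hx
      simpa using this
    · intro x _ y _ hxy
      exact e.injective hxy
    · intro v hv
      simp only [Finset.mem_filter, Finset.mem_univ, true_and] at hv
      refine ⟨e.symm v, ?_, by simp⟩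
      simp only [Finset.mem_filter, Finset.mem_univ, true_and]
      have := (e.symm.map_adj_iff (v := 0) (w := v)).2 hv
      simpa using this
  have hdisj : ∀ s ∈ (Finset.univ : Finset (Fin m)), ∀ t ∈ (Finset.univ : Finset (Fin m)), s ≠ t →
      Disjoint (Finset.univ.filter fun v => (H s).Adj 0 v)
        (Finset.univ.filter fun v => (H t).Adj 0 v) := by
    intro s _ t _ hst
    rw [Finset.disjoint_left]
    intro v hs ht
    simp only [Finset.mem_filter, Finset.mem_univ, true_and] at hs ht
    exact Set.disjoint_left.1 (hdis s t hst) ((H s).mem_edgeSet.2 hs) ((H t).mem_edgeSet.2 ht)
  have hU := Finset.card_biUnion hdisj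
  simp only [hcard, Finset.sum_const, Finset.card_univ, Fintype.card_fin, smul_eq_mul] at hU
  have hsub : (Finset.univ.biUnion fun t => Finset.univ.filter fun v => (H t).Adj 0 v) ⊆
      (Finset.univ : Finset (Fin 50)).erase 0 := by
    intro v hv
    simp only [Finset.mem_biUnion, Finset.mem_univ, Finset.mem_filter, true_and] at hv
    obtain ⟨t, ht⟩ := hv
    simp only [Finset.mem_erase, Finset.mem_univ, and_true]
    exact ht.ne'
  have hle := Finset.card_le_card hsub
  rw [hU, Finset.card_erase_of_mem (Finset.mem_univ _), Finset.card_univ, Fintype.card_fin] at hle
  omega

/-- digit tables: forward and inverse placements of the six copies, base 64 -/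
def fw : Fin 6 → ℕ := ![1318648200813492737428077489399275388141124645431284145447953214372143117470191966339732145, 208180672047813281389641000085171466433857267363509739524774716060604007408423223334569073, 434186533607459439255563630890689451349585843664394445086240170647369043532815877428278833, 639636288381776233410930739474301006353765269347263351955938927373927342411499379835103217, 865973619085608020770784354936810748336712079559604008146957348896082413340896638163605937, 1092310949789439806971432085614898570429432487983532122350724920670076543087155731898450161]

def bw : Fin 6 → ℕ := ![18961964420633898240297305915809569606369730406604296986903452519678776573624036274311299, 18961964420630779191514607058975107293454809243385101729841289164433027201562063195998283, 18961964420633788227692110703911002243051510878493211524667387975102143618093288601335214, 18961964420629373025300648100937992295179854597015195195445111754646440697898656175846378, 18961964420629918910371771935773277561481485515779560572234754425996489509982875371817234, 18961964420632364326258556377102879905351267200794615278879789045823296446124571033498018]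

/-- index of a vertex of the Hoffman-Singleton graph -/
def idx (x : Bool × ZMod 5 × ZMod 5) : ℕ :=
  (if x.1 = true then 25 else 0) + 5 * x.2.1.val + x.2.2.val

def unidx (n : ℕ) : Bool × ZMod 5 × ZMod 5 :=
  (decide (25 ≤ n), (((n % 25) / 5 : ℕ) : ZMod 5), ((n % 5 : ℕ) : ZMod 5))

def pl (t : Fin 6) (x : Bool × ZMod 5 × ZMod 5) : Fin 50 :=
  Fin.ofNat 50 ((fw t >>> (6 * idx x)) % 64)

def lp (t : Fin 6) (u : Fin 50) : Bool × ZMod 5 × ZMod 5 :=
  unidx ((bw t >>> (6 * u.val)) % 64)

theorem left (t : Fin 6) : Function.LeftInverse (lp t) (pl t) := by
  revert t
  unfold Function.LeftInverse
  decide +kernel

theorem right (t : Fin 6) : Function.RightInverse (lp t) (pl t) := by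
  revert t
  unfold Function.RightInverse Function.LeftInverse
  decide +kernel

/-- colours of the edges of the complete graph, base 8 digits; colour 7 marks unused edges -/
def colTab : ℕ := 5308446838437962558687729472884156010779613724195322518260791171497158707269303395188221533483984904906645384642796270690371937748438180663938496338276079500060028671126260557933327242309752238841864068868594062049961389250048830833674322544045181474739530143713486007140436173326004331886973029115607411843953066429400058879444563530384610374732069348360148430573769294515963856268362753378202279769303164370992786910322851832479238213782814679047247721009014358179536289616734187571832302829068594740751960904188100281626403949547610012095639559503216298522773554193881199144744315801999315503609486844250564988956928233231506495108373205564716285393638607138985075110104396356101875218083694064592628494163624046015010356180168266685437133387499786053016084589600581352049474041270919229379997439026363936066165318952160489555740991325580367474986967949787239298696840538694548244743978085231950850309687878052678786944664551655407755638292641367883392239654440130706090491317462207140034778920769907495581844893629039254519858074382776640391214911403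4678338673322020206087267596966646000258545317753307477256290853108646518470645705811828262684252415194089798428635399461836853301090980540199478359593106641059082905064850904849654095870749706475947690883952301036702834229591460226516648113795009538458532195055562083452280456030346858140426295440732620273719170617573538678684722162808569349983994936738857484196945548451490454027135401702739934988819451455235529080787043012100843025091478245181865368962111780092152137133681697595751125547413665139804869354045762577347426407627989496585142748177073601793196180633178317644464449273409933622936901790498631780778043373202314011734354328537918073656639939940600956938961654145115709748833459270743628255526966387170494325186468832837666995641690349422436736089920898599388375830153614744757650351402376270820316105805918606563701474915554358956899498134695975162049480009314561883112317249455432790546046529368071945275410944100354200250549449404071674365738852093619350546461455668744268711908651492003333654421848699913620474899959101320057635784450901130410055995671032802318737281299633656142317043774033447041600305145124539222000214947197278918408183459071462992038382534577044262819034820912399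

def col (u v : Fin 50) : ℕ := (colTab >>> (150 * u.val + 3 * v.val)) % 8

theorem check : ∀ t : Fin 6, ∀ x y, HS.Adj x y → col (pl t x) (pl t y) = t.val := by
  decide +kernel

theorem six : HasPacking 6 := by
  refine ⟨fun t => HS.comap (lp t), fun t => ⟨?_⟩, ?_⟩
  · exact (SimpleGraph.Iso.comap ⟨lp t, pl t, right t, left t⟩ HS).symm
  · intro s t hst
    rw [Set.disjoint_left]
    intro e hs ht
    induction e using Sym2.ind with
    | _ u v =>
      rw [SimpleGraph.mem_edgeSet, SimpleGraph.comap_adj] at hs ht
      have h1 := check s _ _ hs
      have h2 := check t _ _ ht
      rw [right s u, right s v] at h1
      rw [right t u, right t v] at h2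
      exact hst (Fin.ext (h1.symm.trans h2))

/-- The maximum number N of pairwise edge-disjoint copies of the Hoffman-Singleton graph in the
complete graph on 50 vertices exists and is 6 or 7. -/
theorem result : ∃ N : ℕ, IsGreatest {m | HasPacking m} N ∧ (N = 6 ∨ N = 7) := by
  by_cases h7 : HasPacking 7
  · exact ⟨7, ⟨h7, fun m hm => upper m hm⟩, Or.inr rfl⟩
  · refine ⟨6, ⟨six, fun m hm => ?_⟩, Or.inl rfl⟩
    have h := upper m hm
    rcases Nat.lt_or_ge m 7 with h' | h'
    · omega
    · have : m = 7 := by omega
      subst this
      exact absurd hm h7

end Pool.Agent.Results.MP_78d2e3_co.SixCopies
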